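import Pool.Agent.Lib_MP_d88dfe_an.Tower

/-!
# The dimension count
-/

namespace Pool.Agent.Lib_MP_d88dfe_an

variable {K : Type*} [Field K] {V : Type*} [AddCommGroup V] [Module K V]

/-- Periodic coefficients. -/
structure Op.Periodic (D : Op K) (N : ℤ) : Prop where
  om : ∀ s, D.om (s + N) = D.om s
  op : ∀ s, D.op (s + N) = D.op s
  em : ∀ s, D.em (s + N) = D.em s
  e0 : ∀ s, D.e0 (s + N) = D.e0 s
  ep : ∀ s, D.ep (s + N) = D.ep s

lemma Op.Periodic.O_apply {D : Op K} {N : ℤ} (hD : D.Periodic N) {h : ℤ → K}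
    (hh : ∀ s, h (s + N) = h s) (s : ℤ) : D.O h (s + N) = D.O h s := by
  have e1 : s + N - 1 = s - 1 + N := by ring
  have e2 : s + N + 1 = s + 1 + N := by ring
  simp only [Op.O, e1, e2, hh, hD.om, hD.op]

lemma Op.Periodic.E_apply {D : Op K} {N : ℤ} (hD : D.Periodic N) {h : ℤ → K}
    (hh : ∀ s, h (s + N) = h s) (s : ℤ) : D.E h (s + N) = D.E h s := by
  have e1 : s + N - 2 = s - 2 + N := by ring
  have e2 : s + N + 2 = s + 2 + N := by ring
  simp only [Op.E, e1, e2, hh, hD.em, hD.e0, hD.ep]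

/-- The operators of the first step with periodic coefficients. -/
lemma VStep.exists_op_periodic {a b : ℤ → V} (h : VStep K a b) {N : ℤ}
    (ha : ∀ s, a (s + N) = a s) (hb : ∀ s, b (s + N) = b s) :
    ∃ D : Op K, b = D.O a ∧ b = D.E a ∧ D.Periodic N := by
  classical
  choose! s t hst using fun (p : V × V × V) (hp : ∃ s t : K, p.2.2 = s • p.1 + t • p.2.1) => hp
  choose! x y z hxyz using fun (p : V × V × V × V)
    (hp : ∃ x y z : K, p.2.2.2 = x • p.1 + y • p.2.1 + z • p.2.2.1) => hp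
  refine ⟨⟨fun c => s (a (c - 1), a (c + 1), b c), fun c => t (a (c - 1), a (c + 1), b c),
    fun c => x (a (c - 2), a c, a (c + 2), b c), fun c => y (a (c - 2), a c, a (c + 2), b c),
    fun c => z (a (c - 2), a c, a (c + 2), b c)⟩, ?_, ?_, ?_⟩
  · funext c
    exact hst (a (c - 1), a (c + 1), b c) (h.mem2 c)
  · funext c
    exact hxyz (a (c - 2), a c, a (c + 2), b c) (h.mem3 c)
  · have e1 : ∀ c, a (c + N - 1) = a (c - 1) := fun c => by
      rw [show c + N - 1 = c - 1 + N by ring, ha]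
    have e2 : ∀ c, a (c + N + 1) = a (c + 1) := fun c => by
      rw [show c + N + 1 = c + 1 + N by ring, ha]
    have e3 : ∀ c, a (c + N - 2) = a (c - 2) := fun c => by
      rw [show c + N - 2 = c - 2 + N by ring, ha]
    have e4 : ∀ c, a (c + N + 2) = a (c + 2) := fun c => by
      rw [show c + N + 2 = c + 2 + N by ring, ha]
    constructor <;> intro c <;> simp only [e1, e2, e3, e4, ha, hb]

/-- A linear dependency between the relations with centres congruent to `r` modulo two. -/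
def Dep (n : ℕ) (D : Op K) (r : ℤ) : Prop :=
  ∃ ε : ℤ → K,
    (∀ h : ℤ → K, (∀ s, h (s + 2 * n) = h s) →
      ∑ t ∈ Finset.range n, ε (r + 2 * t) * D.O h (r + 2 * t) = 0) ∧
    (∀ h : ℤ → K, (∀ s, h (s + 2 * n) = h s) →
      ∑ t ∈ Finset.range n, ε (r + 2 * t) * D.E h (r + 2 * t) = 0) ∧
    ∃ t, t < n ∧ ε (r + 2 * t) ≠ 0

lemma exists_dep {a b : ℤ → V} (h : VStep K a b) {n : ℕ} (hn : 0 < n)
    (ha : ∀ s, a (s + 2 * n) = a s) {D : Op K} (hO : b = D.O a) (hE : b = D.E a)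
    {R : V} (hR : R ≠ 0) (r : ℤ)
    (hmem : ∀ t : ℤ, ∃ x y z : K, R = x • a (r + 1 + 2 * t - 1) + y • a (r + 1 + 2 * t)
      + z • a (r + 1 + 2 * t + 1)) : Dep n D r := by
  classical
  choose! x y z hxyz using fun (p : V × V × V)
    (hp : ∃ x y z : K, R = x • p.1 + y • p.2.1 + z • p.2.2) => hp
  obtain ⟨γ, hγ⟩ : ∃ γ : ℤ → K, γ = fun s => x (a (s - 1), a s, a (s + 1)) := ⟨_, rfl⟩
  obtain ⟨β, hβ⟩ : ∃ β : ℤ → K, β = fun s => y (a (s - 1), a s, a (s + 1)) := ⟨_, rfl⟩
  obtain ⟨α, hα⟩ : ∃ α : ℤ → K, α = fun s => z (a (s - 1), a s, a (s + 1)) := ⟨_, rfl⟩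
  have hper : ∀ s, (a (s + 2 * n - 1), a (s + 2 * n), a (s + 2 * n + 1))
      = (a (s - 1), a s, a (s + 1)) := by
    intro s
    rw [show s + 2 * (n : ℤ) - 1 = s - 1 + 2 * n by ring,
      show s + 2 * (n : ℤ) + 1 = s + 1 + 2 * n by ring, ha, ha, ha]
  have hγp : ∀ s, γ (s + 2 * n) = γ s := fun s => by simp only [hγ, hper]
  have hβp : ∀ s, β (s + 2 * n) = β s := fun s => by simp only [hβ, hper]
  have hαp : ∀ s, α (s + 2 * n) = α s := fun s => by simp only [hα, hper]
  have hrel : ∀ s, (∃ t : ℤ, s = r + 1 + 2 * t) →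
      R = γ s • a (s - 1) + β s • a s + α s • a (s + 1) := by
    rintro s ⟨t, rfl⟩
    rw [hγ, hβ, hα]
    exact hxyz (a (r + 1 + 2 * t - 1), a (r + 1 + 2 * t), a (r + 1 + 2 * t + 1)) (hmem t)
  have hvec : ∀ c, (∃ t : ℤ, c = r + 2 * t) →
      (-β (c - 1)) • a (c - 1) + β (c + 1) • a (c + 1)
        = γ (c - 1) • a (c - 2) + (α (c - 1) - γ (c + 1)) • a c + (-α (c + 1)) • a (c + 2) := by
    rintro c ⟨t, rfl⟩
    have h1 := hrel (r + 2 * t + 1) ⟨t, by ring⟩
    have h2 := hrel (r + 2 * t - 1) ⟨t - 1, by ring⟩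
    rw [show r + 2 * t + 1 - 1 = r + 2 * t by ring,
      show r + 2 * t + 1 + 1 = r + 2 * t + 2 by ring] at h1
    rw [show r + 2 * t - 1 - 1 = r + 2 * t - 2 by ring,
      show r + 2 * t - 1 + 1 = r + 2 * t by ring] at h2
    have h3 := h1.symm.trans h2
    rw [← sub_eq_zero] at h3 ⊢
    rw [← h3]
    module
  have heps : ∀ c, ∃ e : K, (∃ t : ℤ, c = r + 2 * t) →
      (-β (c - 1)) • a (c - 1) + β (c + 1) • a (c + 1) = e • b c := by
    intro c
    by_cases hc : ∃ t : ℤ, c = r + 2 * t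
    · obtain ⟨e, he⟩ := h.meet c _ _ _ _ _ (hvec c hc)
      exact ⟨e, fun _ => he⟩
    · exact ⟨0, fun hc' => absurd hc' hc⟩
  choose ε hε using heps
  have hcO : ∀ c, (∃ t : ℤ, c = r + 2 * t) →
      ε c * D.om c = -β (c - 1) ∧ ε c * D.op c = β (c + 1) := by
    intro c hc
    have h1 := hε c hc
    rw [hO] at h1
    simp only [Op.O] at h1
    have h2 := h.li2 c (-β (c - 1) - ε c * D.om c) (β (c + 1) - ε c * D.op c) (by
      rw [← sub_eq_zero] at h1
      rw [← h1]
      module)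
    exact ⟨(sub_eq_zero.mp h2.1).symm, (sub_eq_zero.mp h2.2).symm⟩
  have hcE : ∀ c, (∃ t : ℤ, c = r + 2 * t) →
      ε c * D.em c = γ (c - 1) ∧ ε c * D.e0 c = α (c - 1) - γ (c + 1) ∧
        ε c * D.ep c = -α (c + 1) := by
    intro c hc
    have h1 := (hvec c hc).symm.trans (hε c hc)
    rw [hE] at h1
    simp only [Op.E] at h1
    have h2 := h.li3 c (γ (c - 1) - ε c * D.em c)
      (α (c - 1) - γ (c + 1) - ε c * D.e0 c) (-α (c + 1) - ε c * D.ep c) (by
      rw [← sub_eq_zero] at h1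
      rw [← h1]
      module)
    exact ⟨(sub_eq_zero.mp h2.1).symm, (sub_eq_zero.mp h2.2.1).symm,
      (sub_eq_zero.mp h2.2.2).symm⟩
  refine ⟨ε, ?_, ?_, ?_⟩
  · intro f hf
    obtain ⟨g, hg⟩ : ∃ g : ℕ → K, ∀ t, g t = β (r + 2 * (t : ℤ) - 1) * f (r + 2 * (t : ℤ) - 1) :=
      ⟨_, fun _ => rfl⟩
    have hterm : ∀ t ∈ Finset.range n, ε (r + 2 * (t : ℤ)) * D.O f (r + 2 * (t : ℤ))
        = g (t + 1) - g t := by
      intro t _
      obtain ⟨h1, h2⟩ := hcO (r + 2 * (t : ℤ)) ⟨t, rfl⟩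
      simp only [Op.O, smul_eq_mul, mul_add, ← mul_assoc, h1, h2, hg]
      push_cast
      rw [show r + 2 * ((t : ℤ) + 1) - 1 = r + 2 * (t : ℤ) + 1 by ring]
      ring
    rw [Finset.sum_congr rfl hterm, Finset.sum_range_sub, hg, hg]
    simp only [Nat.cast_zero, mul_zero, add_zero]
    rw [show r + 2 * (n : ℤ) - 1 = r - 1 + 2 * n by ring, hβp, hf, sub_self]
  · intro f hf
    obtain ⟨g, hg⟩ : ∃ g : ℕ → K, ∀ t, g t = -(γ (r + 2 * (t : ℤ) - 1) * f (r + 2 * (t : ℤ) - 2)
            + α (r + 2 * (t : ℤ) - 1) * f (r + 2 * (t : ℤ))) :=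
      ⟨_, fun _ => rfl⟩
    have hterm : ∀ t ∈ Finset.range n, ε (r + 2 * (t : ℤ)) * D.E f (r + 2 * (t : ℤ))
        = g (t + 1) - g t := by
      intro t _
      obtain ⟨h1, h2, h3⟩ := hcE (r + 2 * (t : ℤ)) ⟨t, rfl⟩
      simp only [Op.E, smul_eq_mul, mul_add, ← mul_assoc, h1, h2, h3, hg]
      push_cast
      rw [show r + 2 * ((t : ℤ) + 1) - 1 = r + 2 * (t : ℤ) + 1 by ring,
        show r + 2 * ((t : ℤ) + 1) - 2 = r + 2 * (t : ℤ) by ring,
        show r + 2 * ((t : ℤ) + 1) = r + 2 * (t : ℤ) + 2 by ring]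
      ring
    rw [Finset.sum_congr rfl hterm, Finset.sum_range_sub, hg, hg]
    simp only [Nat.cast_zero, mul_zero, add_zero]
    rw [show r + 2 * (n : ℤ) - 1 = r - 1 + 2 * n by ring,
      show r + 2 * (n : ℤ) - 2 = r - 2 + 2 * n by ring, hγp, hf, hαp, hf, sub_self]
  · by_contra hcon
    push Not at hcon
    apply hR
    have h0 := hcon 0 hn
    simp only [Nat.cast_zero, mul_zero, add_zero] at h0
    obtain ⟨h1, h2⟩ := hcO r ⟨0, by ring⟩
    obtain ⟨h3, h4, h5⟩ := hcE r ⟨0, by ring⟩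
    rw [h0, zero_mul] at h1 h2 h3 h4 h5
    have hlast := hcon (n - 1) (by omega)
    obtain ⟨h6, h7, h8⟩ := hcE (r + 2 * ((n - 1 : ℕ) : ℤ)) ⟨((n - 1 : ℕ) : ℤ), rfl⟩
    rw [hlast, zero_mul] at h8
    have hcast : ((n - 1 : ℕ) : ℤ) = (n : ℤ) - 1 := by
      rw [Nat.cast_sub (by omega)]
      simp
    rw [hcast, show r + 2 * ((n : ℤ) - 1) + 1 = r - 1 + 2 * n by ring, hαp] at h8
    have hα0 : α (r - 1) = 0 := by
      have := h8.symm
      simpa using this
    have hβ0 : β (r - 1) = 0 := by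
      have := h1.symm
      simpa using this
    have := hrel (r - 1) ⟨-1, by ring⟩
    rw [hα0, hβ0, ← h3] at this
    simpa using this

/-! ### Functions supported on one parity class -/

/-- The periodic function supported on the sites congruent to `q` modulo two with given values. -/
def emb (n : ℕ) [NeZero n] (q : ℤ) : (Fin n → K) →ₗ[K] (ℤ → K) where
  toFun f := fun s => if 2 ∣ (s - q) then f (Fin.ofNat n (((s - q) / 2) % n).toNat) else 0
  map_add' f g := by
    funext s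
    by_cases h : 2 ∣ (s - q) <;> simp [h]
  map_smul' c f := by
    funext s
    by_cases h : 2 ∣ (s - q) <;> simp [h]

lemma emb_periodic (n : ℕ) [NeZero n] (q : ℤ) (f : Fin n → K) (s : ℤ) :
    emb n q f (s + 2 * n) = emb n q f s := by
  have e1 : (2 ∣ (s + 2 * (n : ℤ) - q)) = (2 ∣ (s - q)) := by
    apply propext
    omega
  have e2 : (s + 2 * (n : ℤ) - q) / 2 = (s - q) / 2 + n := by omega
  simp only [emb, LinearMap.coe_mk, AddHom.coe_mk, e1, e2, Int.add_emod_right]

lemma emb_apply (n : ℕ) [NeZero n] (q : ℤ) (f : Fin n → K) (t : Fin n) :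
    emb n q f (q + 2 * (t : ℕ)) = f t := by
  have e1 : 2 ∣ (q + 2 * ((t : ℕ) : ℤ) - q) := by omega
  have e2 : (q + 2 * ((t : ℕ) : ℤ) - q) / 2 = ((t : ℕ) : ℤ) := by omega
  have e3 : ((t : ℕ) : ℤ) % (n : ℤ) = ((t : ℕ) : ℤ) := by
    have := t.isLt
    exact Int.emod_eq_of_lt (by omega) (by omega)
  simp only [emb, LinearMap.coe_mk, AddHom.coe_mk, e1, e2, e3, if_true, Int.toNat_natCast]
  congr 1
  ext
  simp [Fin.ofNat, Nat.mod_eq_of_lt t.isLt]

lemma emb_support (n : ℕ) [NeZero n] (q : ℤ) (f : Fin n → K) (s : ℤ) (h : ¬ 2 ∣ (s - q)) :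
    emb n q f s = 0 := by
  simp [emb, h]

/-- The restriction of a linear functional along a polygon to one parity class. -/
def restr (a : ℤ → V) (q : ℤ) : Module.Dual K V →ₗ[K] (ℤ → K) where
  toFun ξ := fun s => if 2 ∣ (s - q) then ξ (a s) else 0
  map_add' f g := by
    funext s
    by_cases h : 2 ∣ (s - q) <;> simp [h]
  map_smul' c f := by
    funext s
    by_cases h : 2 ∣ (s - q) <;> simp [h]

lemma restr_periodic {a : ℤ → V} {n : ℕ} (ha : ∀ s, a (s + 2 * n) = a s) (q : ℤ)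
    (ξ : Module.Dual K V) (s : ℤ) : restr a q ξ (s + 2 * n) = restr a q ξ s := by
  have e1 : (2 ∣ (s + 2 * (n : ℤ) - q)) = (2 ∣ (s - q)) := by
    apply propext
    omega
  simp only [restr, LinearMap.coe_mk, AddHom.coe_mk, e1, ha]

lemma restr_support (a : ℤ → V) (q : ℤ) (ξ : Module.Dual K V) (s : ℤ) (h : ¬ 2 ∣ (s - q)) :
    restr a q ξ s = 0 := by
  simp [restr, h]

/-- The odd operator as a linear map. -/
def Op.OL (D : Op K) : (ℤ → K) →ₗ[K] (ℤ → K) where
  toFun := D.O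
  map_add' f g := by
    funext s
    simp [Op.O]
    ring
  map_smul' c f := by
    funext s
    simp [Op.O]
    ring

/-- The even operator as a linear map. -/
def Op.EL (D : Op K) : (ℤ → K) →ₗ[K] (ℤ → K) where
  toFun := D.E
  map_add' f g := by
    funext s
    simp [Op.E]
    ring
  map_smul' c f := by
    funext s
    simp [Op.E]
    ring

/-- The unknown functions of the linear system. -/
def unk (a : ℤ → V) (n m : ℕ) [NeZero n] (q : ℤ) (j : ℕ) :
    (Module.Dual K V × (Fin m → Fin n → K)) →ₗ[K] (ℤ → K) :=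
  match j with
  | 0 => restr a q ∘ₗ LinearMap.fst K _ _
  | i + 1 => if h : i < m then
      (emb n (q + i + 1)) ∘ₗ (LinearMap.proj (⟨i, h⟩ : Fin m)) ∘ₗ LinearMap.snd K _ _ else 0

lemma unk_zero (a : ℤ → V) (n m : ℕ) [NeZero n] (q : ℤ)
    (d : Module.Dual K V × (Fin m → Fin n → K)) : unk a n m q 0 d = restr a q d.1 := rfl

lemma unk_succ (a : ℤ → V) (n m : ℕ) [NeZero n] (q : ℤ) (i : ℕ) (h : i < m)
    (d : Module.Dual K V × (Fin m → Fin n → K)) :
    unk a n m q (i + 1) d = emb n (q + i + 1) (d.2 ⟨i, h⟩) := by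
  simp [unk, h]

lemma unk_big (a : ℤ → V) (n m : ℕ) [NeZero n] (q : ℤ) (i : ℕ) (h : ¬ i < m)
    (d : Module.Dual K V × (Fin m → Fin n → K)) :
    unk a n m q (i + 1) d = 0 := by
  simp [unk, h]

lemma unk_periodic {a : ℤ → V} {n : ℕ} (ha : ∀ s, a (s + 2 * n) = a s) (m : ℕ) [NeZero n]
    (q : ℤ) (j : ℕ) (d : Module.Dual K V × (Fin m → Fin n → K)) (s : ℤ) :
    unk a n m q j d (s + 2 * n) = unk a n m q j d s := by
  cases j with
  | zero => exact restr_periodic ha q d.1 s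
  | succ i =>
    by_cases h : i < m
    · rw [unk_succ a n m q i h]
      exact emb_periodic n _ _ s
    · rw [unk_big a n m q i h]
      rfl

lemma unk_support (a : ℤ → V) (n m : ℕ) [NeZero n] (q : ℤ) (j : ℕ)
    (d : Module.Dual K V × (Fin m → Fin n → K)) (s : ℤ) (h : ¬ 2 ∣ (s - (q + j))) :
    unk a n m q j d s = 0 := by
  cases j with
  | zero =>
    exact restr_support a q d.1 s (by simpa using h)
  | succ i =>
    by_cases hi : i < m
    · rw [unk_succ a n m q i hi]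
      refine emb_support n _ _ s ?_
      push_cast at h
      rwa [show s - (q + i + 1) = s - (q + (i + 1)) by ring]
    · rw [unk_big a n m q i hi]
      rfl

/-- The main count: a hyperplane containing one parity class of the last polygon. -/
lemma exists_hyperplane [FiniteDimensional K V] (hV : Module.finrank K V = 4) {m : ℕ}
    {a : ℕ → ℤ → V} {D : ℕ → Op K} (hT : Tower (m + 1) a D)
    (ha : ∀ s, a 0 (s + 2 * (m + 4 : ℕ)) = a 0 s) (hD : (D 0).Periodic (2 * (m + 4 : ℕ)))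
    (hdep : ∀ r : ℤ, Dep (m + 4) (D 0) r) (q : ℤ) :
    ∃ ξ : Module.Dual K V, ξ ≠ 0 ∧ ∀ t : ℤ, ξ (a (m + 1) (q + (m + 1) + 2 * t)) = 0 := by
  classical
  obtain ⟨n, hn⟩ : ∃ n, n = m + 4 := ⟨_, rfl⟩
  rw [← hn] at ha hD hdep
  have hn0 : 0 < n := by omega
  have : NeZero n := ⟨by omega⟩
  choose ε hεO hεE hε using hdep
  choose τ hτ1 hτ2 using hε
  -- the equations
  let EQ : ℕ → (Module.Dual K V × (Fin m → Fin n → K)) →ₗ[K] (ℤ → K) := fun j =>
    (D 0).OL ∘ₗ unk (a 0) n m q j - (D 0).EL ∘ₗ unk (a 0) n m q (j + 1)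
  have hEQ : ∀ j d s, EQ j d s = (D 0).O (unk (a 0) n m q j d) s
      - (D 0).E (unk (a 0) n m q (j + 1) d) s := fun j d s => rfl
  have hEQper : ∀ j d s, EQ j d (s + 2 * n) = EQ j d s := by
    intro j d s
    rw [hEQ, hEQ, hD.O_apply (unk_periodic ha m q j d), hD.E_apply (unk_periodic ha m q (j + 1) d)]
  have hEQsupp : ∀ (j : ℕ) d s, ¬ 2 ∣ (s - (q + j + 1)) → EQ j d s = 0 := by
    intro j d s hs
    rw [hEQ]
    simp only [Op.O, Op.E]
    rw [unk_support (a 0) n m q j d (s - 1) (by omega),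
      unk_support (a 0) n m q j d (s + 1) (by omega),
      unk_support (a 0) n m q (j + 1) d (s - 2) (by push_cast; omega),
      unk_support (a 0) n m q (j + 1) d s (by push_cast; omega),
      unk_support (a 0) n m q (j + 1) d (s + 2) (by push_cast; omega)]
    simp
  let Idx := Σ j : Fin (m + 1), {t : Fin n // (t : ℕ) ≠ τ (q + j + 1)}
  let Ψ : (Module.Dual K V × (Fin m → Fin n → K)) →ₗ[K] (Idx → K) :=
    LinearMap.pi fun p => (LinearMap.proj (q + p.1 + 1 + 2 * ((p.2.1 : ℕ) : ℤ))) ∘ₗ EQ p.1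
  have hker : LinearMap.ker Ψ ≠ ⊥ := by
    refine LinearMap.ker_ne_bot_of_finrank_lt ?_
    rw [Module.finrank_fintype_fun_eq_card, Module.finrank_prod, Subspace.dual_finrank_eq, hV,
      Module.finrank_pi_fintype]
    simp only [Module.finrank_fintype_fun_eq_card, Fintype.card_fin, Finset.sum_const,
      Finset.card_univ, smul_eq_mul]
    have hcard : Fintype.card Idx = (m + 1) * (n - 1) := by
      show Fintype.card (Σ j : Fin (m + 1), {t : Fin n // (t : ℕ) ≠ τ (q + j + 1)}) = _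
      rw [Fintype.card_sigma]
      have : ∀ j : Fin (m + 1), Fintype.card {t : Fin n // (t : ℕ) ≠ τ (q + j + 1)} = n - 1 := by
        intro j
        have h1 := Fintype.card_subtype_compl
          (fun t : Fin n => t = (⟨τ (q + j + 1), hτ1 _⟩ : Fin n))
        rw [Fintype.card_subtype_eq, Fintype.card_fin] at h1
        rw [← h1]
        refine Fintype.card_congr (Equiv.subtypeEquivRight ?_)
        intro t
        rw [Fin.ext_iff]
      simp [this]
    rw [hcard, hn]
    have : m + 4 - 1 = m + 3 := by omega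
    rw [this]
    ring_nf
    omega
  obtain ⟨d, hd, hd0⟩ := Submodule.exists_mem_ne_zero_of_ne_bot hker
  have hd' : ∀ (j : ℕ), j < m + 1 → ∀ t : ℕ, t < n → t ≠ τ (q + j + 1) →
      EQ j d (q + j + 1 + 2 * (t : ℤ)) = 0 := by
    intro j hj t ht hne
    have h1 : Ψ d = 0 := hd
    exact congrFun h1 (⟨⟨j, hj⟩, ⟨⟨t, ht⟩, hne⟩⟩ : Idx)
  have hall : ∀ (j : ℕ), j < m + 1 → ∀ t : ℕ, t < n →
      EQ j d (q + j + 1 + 2 * (t : ℤ)) = 0 := by
    intro j hj t ht
    by_cases hne : t = τ (q + j + 1)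
    · have h1 := hεO (q + j + 1) (unk (a 0) n m q j d) (unk_periodic ha m q j d)
      have h2 := hεE (q + j + 1) (unk (a 0) n m q (j + 1) d) (unk_periodic ha m q (j + 1) d)
      have h3 : ∑ t ∈ Finset.range n, ε (q + j + 1) (q + j + 1 + 2 * (t : ℤ))
          * EQ j d (q + j + 1 + 2 * (t : ℤ)) = 0 := by
        simp only [hEQ, mul_sub, Finset.sum_sub_distrib]
        rw [h1, h2, sub_self]
      rw [Finset.sum_eq_single t] at h3
      · rcases mul_eq_zero.mp h3 with h4 | h4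
        · rw [hne] at h4
          exact absurd h4 (hτ2 (q + j + 1))
        · exact h4
      · intro t' ht' hne'
        rw [hd' j hj t' (Finset.mem_range.mp ht') (by rw [← hne]; exact hne'), mul_zero]
      · intro hnot
        exact absurd (Finset.mem_range.mpr ht) hnot
    · exact hd' j hj t ht hne
  have hshift : ∀ (g : ℤ → K), (∀ s, g (s + 2 * n) = g s) → ∀ (s : ℤ) (k : ℤ),
      g (s + 2 * n * k) = g s := by
    intro g hg s k
    induction k using Int.induction_on with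
    | zero => simp
    | succ i ih =>
      rw [show s + 2 * (n : ℤ) * ((i : ℤ) + 1) = s + 2 * n * i + 2 * n by ring, hg, ih]
    | pred i ih =>
      rw [← hg, show s + 2 * (n : ℤ) * (-(i : ℤ) - 1) + 2 * n = s + 2 * n * (-i) by ring, ih]
  have hzero : ∀ (j : ℕ), j < m + 1 → EQ j d = 0 := by
    intro j hj
    funext s
    by_cases hs : 2 ∣ (s - (q + j + 1))
    · obtain ⟨u, hu⟩ : ∃ u : ℤ, s = q + j + 1 + 2 * u := ⟨(s - (q + j + 1)) / 2, by omega⟩
      have hnz : (n : ℤ) ≠ 0 := by exact_mod_cast hn0.ne'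
      have h1 := Int.emod_add_mul_ediv u n
      have h2 := Int.emod_nonneg u hnz
      have h3 := Int.emod_lt_of_pos u (by exact_mod_cast hn0 : (0 : ℤ) < n)
      have h4 := hall j hj (u % n).toNat (by omega)
      rw [Int.toNat_of_nonneg h2] at h4
      rw [hu, ← h1, show q + (j : ℤ) + 1 + 2 * (u % n + n * (u / n))
        = q + j + 1 + 2 * (u % n) + 2 * n * (u / n) by ring,
        hshift (EQ j d) (hEQper j d), h4]
      rfl
    · rw [hEQsupp j d s hs]
      rfl
  have hrec : ∀ j, j < m → (D 0).E (unk (a 0) n m q (j + 1) d)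
      = (D 0).O (unk (a 0) n m q j d) := by
    intro j hj
    funext s
    have := congrFun (hzero j (by omega)) s
    rw [hEQ] at this
    exact (sub_eq_zero.mp this).symm
  have hlast : (D 0).O (unk (a 0) n m q m d) = 0 := by
    funext s
    have := congrFun (hzero m (by omega)) s
    rw [hEQ, unk_big (a 0) n m q m (by omega), Op.E_zero] at this
    simpa using this
  refine ⟨d.1, ?_, ?_⟩
  · intro hξ
    apply hd0
    have h0 : unk (a 0) n m q 0 d = 0 := by
      rw [unk_zero, hξ, map_zero]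
    have hu := hT.unique (fun j => unk (a 0) n m q j d) h0 hrec hlast
    refine Prod.ext hξ ?_
    funext i t
    have h1 : unk (a 0) n m q (i + 1) d = 0 := hu (i + 1) (by omega)
    rw [unk_succ (a 0) n m q i i.isLt] at h1
    have h2 := congrFun h1 (q + (i : ℕ) + 1 + 2 * (t : ℕ))
    rw [emb_apply] at h2
    exact h2
  · have hv := hT.vanish (fun j => unk (a 0) n m q j d) hrec hlast
    have hit : ∀ j, j ≤ m + 1 → ∀ s : ℤ, 2 ∣ (s - (q + j)) →
        iter D (unk (a 0) n m q 0 d) j s = d.1 (a j s) := by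
      intro j
      induction j with
      | zero =>
        intro _ s hs
        show restr (a 0) q d.1 s = _
        simp only [Nat.cast_zero, add_zero] at hs
        simp [restr, hs]
      | succ j ih =>
        intro hj s hs
        push_cast at hs
        show (D j).O (iter D (unk (a 0) n m q 0 d) j) s = _
        rw [hT.eqO j (by omega)]
        simp only [Op.O]
        rw [ih (by omega) (s - 1) (by omega), ih (by omega) (s + 1) (by omega)]
        simp
    intro t
    rw [← hit (m + 1) le_rfl _ (by push_cast; omega)]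
    exact congrFun hv _

end Pool.Agent.Lib_MP_d88dfe_an
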