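import Mathlib

/-!
# The pentagram map in projective three-space: definitions
-/

namespace Pool.Agent.Lib_MP_d88dfe_an

open scoped LinearAlgebra.Projectivization

/-- The real projective space `RP^3`. -/
abbrev RP3 : Type := ℙ ℝ (Fin 4 → ℝ)

/-- The projective span of two points of `RP^3`, as a linear subspace of `ℝ^4`. It is a line when
it has linear dimension two. -/
noncomputable def span2 (X Y : RP3) : Submodule ℝ (Fin 4 → ℝ) := X.submodule ⊔ Y.submodule

/-- The projective span of three points of `RP^3`, as a linear subspace of `ℝ^4`. It is a plane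
when it has linear dimension three. -/
noncomputable def span3 (X Y Z : RP3) : Submodule ℝ (Fin 4 → ℝ) := X.submodule ⊔ Y.submodule ⊔ Z.submodule

/-- `F(A)` is defined and equal to `B`: for every `i` the points `A (i - 1)`, `A (i + 1)` span a
line, the points `A (i - 2)`, `A i`, `A (i + 2)` span a plane, and this line and this plane meet
exactly in the point `B i`. -/
def IsImage (A B : ℤ → RP3) : Prop :=
  ∀ i : ℤ,
    Module.finrank ℝ (span2 (A (i - 1)) (A (i + 1))) = 2 ∧
    Module.finrank ℝ (span3 (A (i - 2)) (A i) (A (i + 2))) = 3 ∧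
    span2 (A (i - 1)) (A (i + 1)) ⊓ span3 (A (i - 2)) (A i) (A (i + 2)) = (B i).submodule

/-- `F^k(A)` is defined and equal to `B`. -/
def IsIterate (k : ℕ) (A B : ℤ → RP3) : Prop :=
  ∃ C : ℕ → ℤ → RP3, C 0 = A ∧ C k = B ∧ ∀ j < k, IsImage (C j) (C (j + 1))

/-- The points `B i`, for the indices `i` satisfying `p`, lie in one plane. -/
def Coplanar (B : ℤ → RP3) (p : ℤ → Prop) : Prop :=
  ∃ W : Submodule ℝ (Fin 4 → ℝ), Module.finrank ℝ W = 3 ∧ ∀ i, p i → (B i).submodule ≤ W

end Pool.Agent.Lib_MP_d88dfe_an
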