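import Pool.Agent.Lib_MP_d88dfe_an.Defs
import Pool.Agent.Lib_MP_d88dfe_an.Count

/-!
# The Devron property of the pentagram map in space
-/

namespace Pool.Agent.Lib_MP_d88dfe_an

open scoped LinearAlgebra.Projectivization

lemma mem_span2 {X Y : RP3} {v : Fin 4 → ℝ} :
    v ∈ span2 X Y ↔ ∃ s t : ℝ, v = s • X.rep + t • Y.rep := by
  rw [span2, X.submodule_eq, Y.submodule_eq, Submodule.mem_sup]
  constructor
  · rintro ⟨y, hy, z, hz, rfl⟩
    obtain ⟨s, rfl⟩ := Submodule.mem_span_singleton.mp hy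
    obtain ⟨t, rfl⟩ := Submodule.mem_span_singleton.mp hz
    exact ⟨s, t, rfl⟩
  · rintro ⟨s, t, rfl⟩
    exact ⟨_, Submodule.mem_span_singleton.mpr ⟨s, rfl⟩, _,
      Submodule.mem_span_singleton.mpr ⟨t, rfl⟩, rfl⟩

lemma mem_span3 {X Y Z : RP3} {v : Fin 4 → ℝ} :
    v ∈ span3 X Y Z ↔ ∃ x y z : ℝ, v = x • X.rep + y • Y.rep + z • Z.rep := by
  have h : span3 X Y Z = span2 X Y ⊔ Z.submodule := rfl
  rw [h, Submodule.mem_sup]
  constructor
  · rintro ⟨y, hy, z, hz, rfl⟩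
    obtain ⟨s, t, rfl⟩ := mem_span2.mp hy
    rw [Z.submodule_eq] at hz
    obtain ⟨u, rfl⟩ := Submodule.mem_span_singleton.mp hz
    exact ⟨s, t, u, rfl⟩
  · rintro ⟨s, t, u, rfl⟩
    refine ⟨_, mem_span2.mpr ⟨s, t, rfl⟩, u • Z.rep, ?_, rfl⟩
    rw [Z.submodule_eq]
    exact Submodule.mem_span_singleton.mpr ⟨u, rfl⟩

lemma span2_eq (X Y : RP3) : span2 X Y = Submodule.span ℝ (Set.range ![X.rep, Y.rep]) := by
  ext v
  rw [mem_span2, Submodule.mem_span_range_iff_exists_fun]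
  constructor
  · rintro ⟨s, t, rfl⟩
    exact ⟨![s, t], by simp [Fin.sum_univ_two]⟩
  · rintro ⟨c, rfl⟩
    exact ⟨c 0, c 1, by simp [Fin.sum_univ_two]⟩

lemma span3_eq (X Y Z : RP3) :
    span3 X Y Z = Submodule.span ℝ (Set.range ![X.rep, Y.rep, Z.rep]) := by
  ext v
  rw [mem_span3, Submodule.mem_span_range_iff_exists_fun]
  constructor
  · rintro ⟨s, t, u, rfl⟩
    exact ⟨![s, t, u], by simp [Fin.sum_univ_three]⟩
  · rintro ⟨c, rfl⟩
    exact ⟨c 0, c 1, c 2, by simp [Fin.sum_univ_three]⟩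

lemma li_of_finrank2 {X Y : RP3} (h : Module.finrank ℝ (span2 X Y) = 2) (s t : ℝ)
    (hst : s • X.rep + t • Y.rep = 0) : s = 0 ∧ t = 0 := by
  have hli : LinearIndependent ℝ ![X.rep, Y.rep] := by
    rw [linearIndependent_iff_card_eq_finrank_span, Set.finrank, ← span2_eq, h]
    simp
  exact LinearIndependent.pair_iff.mp hli s t hst

lemma li_of_finrank3 {X Y Z : RP3} (h : Module.finrank ℝ (span3 X Y Z) = 3) (x y z : ℝ)
    (hst : x • X.rep + y • Y.rep + z • Z.rep = 0) : x = 0 ∧ y = 0 ∧ z = 0 := by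
  have hli : LinearIndependent ℝ ![X.rep, Y.rep, Z.rep] := by
    rw [linearIndependent_iff_card_eq_finrank_span, Set.finrank, ← span3_eq, h]
    simp
  rw [Fintype.linearIndependent_iff] at hli
  have := hli ![x, y, z] (by simpa [Fin.sum_univ_three] using hst)
  exact ⟨this 0, this 1, this 2⟩

lemma IsImage.vstep {A B : ℤ → RP3} (h : IsImage A B) :
    VStep ℝ (fun i => (A i).rep) (fun i => (B i).rep) where
  li2 i s t hst := li_of_finrank2 (h i).1 s t hst
  li3 i x y z hxyz := li_of_finrank3 (h i).2.1 x y z hxyz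
  ne i := (B i).rep_nonzero
  mem2 i := by
    have h1 : (B i).rep ∈ (B i).submodule := by
      rw [(B i).submodule_eq]
      exact Submodule.mem_span_singleton_self _
    rw [← (h i).2.2] at h1
    exact mem_span2.mp h1.1
  mem3 i := by
    have h1 : (B i).rep ∈ (B i).submodule := by
      rw [(B i).submodule_eq]
      exact Submodule.mem_span_singleton_self _
    rw [← (h i).2.2] at h1
    exact mem_span3.mp h1.2
  meet i s t x y z hst := by
    have h1 : s • (A (i - 1)).rep + t • (A (i + 1)).rep ∈ (B i).submodule := by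
      rw [← (h i).2.2]
      exact ⟨mem_span2.mpr ⟨s, t, rfl⟩, mem_span3.mpr ⟨x, y, z, hst⟩⟩
    rw [(B i).submodule_eq] at h1
    obtain ⟨r, hr⟩ := Submodule.mem_span_singleton.mp h1
    exact ⟨r, hr.symm⟩

/-- The main theorem. -/
theorem main (n : ℕ) (hn : 4 ≤ n) (A B : ℤ → RP3) (hA : ∀ i, A (i + 2 * n) = A i)
    (P Q : RP3)
    (hP : ∀ i, Even i → P.submodule ≤ span3 (A (i - 1)) (A i) (A (i + 1)))
    (hQ : ∀ i, Odd i → Q.submodule ≤ span3 (A (i - 1)) (A i) (A (i + 1)))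
    (hB : IsIterate (n - 3) A B) : Coplanar B Odd ∧ Coplanar B Even := by
  obtain ⟨C, hC0, hCk, hC⟩ := hB
  obtain ⟨m, rfl⟩ : ∃ m, n = m + 4 := ⟨n - 4, by omega⟩
  have hm : m + 4 - 3 = m + 1 := by omega
  rw [hm] at hCk hC
  -- periodicity of the second polygon
  have hC1 : ∀ i, C 1 (i + 2 * (m + 4 : ℕ)) = C 1 i := by
    intro i
    apply Projectivization.submodule_injective
    have h1 := (hC 0 (by omega) (i + 2 * (m + 4 : ℕ))).2.2
    have h2 := (hC 0 (by omega) i).2.2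
    rw [zero_add] at h1 h2
    rw [← h1, ← h2, hC0]
    rw [show i + 2 * ((m + 4 : ℕ) : ℤ) - 1 = i - 1 + 2 * (m + 4 : ℕ) by ring,
      show i + 2 * ((m + 4 : ℕ) : ℤ) + 1 = i + 1 + 2 * (m + 4 : ℕ) by ring,
      show i + 2 * ((m + 4 : ℕ) : ℤ) - 2 = i - 2 + 2 * (m + 4 : ℕ) by ring,
      show i + 2 * ((m + 4 : ℕ) : ℤ) + 2 = i + 2 + 2 * (m + 4 : ℕ) by ring,
      hA, hA, hA, hA, hA]
  have hA0 : ∀ i, C 0 (i + 2 * (m + 4 : ℕ)) = C 0 i := by
    intro i
    rw [hC0, hA]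
  have hstep : ∀ j, j < m + 1 → VStep ℝ (fun i => (C j i).rep) (fun i => (C (j + 1) i).rep) :=
    fun j hj => (hC j hj).vstep
  obtain ⟨D₀, hO, hE, hper⟩ := (hstep 0 (by omega)).exists_op_periodic
    (N := 2 * (m + 4 : ℕ)) (fun s => by simp only [hA0]) (fun s => by
      simp only [zero_add, hC1])
  obtain ⟨D, hD0, hT⟩ := exists_tower (a := fun j i => (C j i).rep) hstep hO hE
  have hdep : ∀ r : ℤ, Dep (m + 4) (D 0) r := by
    intro r
    rw [hD0]
    have hmem : ∀ (R : RP3) (t : ℤ), R.submodule ≤ span3 (A (r + 1 + 2 * t - 1))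
        (A (r + 1 + 2 * t)) (A (r + 1 + 2 * t + 1)) →
        ∃ x y z : ℝ, R.rep = x • (C 0 (r + 1 + 2 * t - 1)).rep
          + y • (C 0 (r + 1 + 2 * t)).rep + z • (C 0 (r + 1 + 2 * t + 1)).rep := by
      intro R t hR
      have h1 : R.rep ∈ R.submodule := by
        rw [R.submodule_eq]
        exact Submodule.mem_span_singleton_self _
      rw [hC0]
      exact mem_span3.mp (hR h1)
    rcases Int.even_or_odd r with hr | hr
    · refine exists_dep (hstep 0 (by omega)) (by omega) (fun s => by simp only [hA0]) hO hE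
        (Q.rep_nonzero) r (fun t => hmem Q t (hQ _ ?_))
      obtain ⟨k, rfl⟩ := hr
      exact ⟨k + t, by ring⟩
    · refine exists_dep (hstep 0 (by omega)) (by omega) (fun s => by simp only [hA0]) hO hE
        (P.rep_nonzero) r (fun t => hmem P t (hP _ ?_))
      obtain ⟨k, rfl⟩ := hr
      exact ⟨k + t + 1, by ring⟩
  have hplane : ∀ q : ℤ, ∃ W : Submodule ℝ (Fin 4 → ℝ), Module.finrank ℝ W = 3 ∧
      ∀ t : ℤ, (B (q + 2 * t)).submodule ≤ W := by
    intro q
    obtain ⟨ξ, hξ, hv⟩ := exists_hyperplane (by simp) hT (fun s => by simp only [hA0])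
      (by rw [hD0]; exact hper) hdep (q - (m + 1))
    refine ⟨LinearMap.ker ξ, ?_, ?_⟩
    · have := Module.Dual.finrank_ker_add_one_of_ne_zero hξ
      simp at this
      omega
    · intro t
      rw [(B (q + 2 * t)).submodule_eq, Submodule.span_singleton_le_iff_mem, LinearMap.mem_ker]
      have := hv t
      rw [show q - ((m : ℤ) + 1) + (m + 1) + 2 * t = q + 2 * t by ring] at this
      rw [← hCk]
      exact this
  constructor
  · obtain ⟨W, hW, hW'⟩ := hplane 1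
    refine ⟨W, hW, ?_⟩
    rintro i ⟨k, rfl⟩
    rw [add_comm]
    exact hW' k
  · obtain ⟨W, hW, hW'⟩ := hplane 0
    refine ⟨W, hW, ?_⟩
    rintro i ⟨k, rfl⟩
    rw [show k + k = 0 + 2 * k by ring]
    exact hW' k

end Pool.Agent.Lib_MP_d88dfe_an
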