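import Mathlib

/-!
# Difference operators attached to iterates of the pentagram map in space
-/

namespace Pool.Agent.Lib_MP_d88dfe_an

variable {K : Type*} [Field K]

/-- Coefficients of a pair of difference operators `O` (odd part) and `E` (even part). -/
structure Op (K : Type*) where
  om : ℤ → K
  op : ℤ → K
  em : ℤ → K
  e0 : ℤ → K
  ep : ℤ → K

section

variable {M : Type*} [AddCommGroup M] [Module K M]

/-- The odd operator. -/
def Op.O (D : Op K) (h : ℤ → M) : ℤ → M := fun c => D.om c • h (c - 1) + D.op c • h (c + 1)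

/-- The even operator. -/
def Op.E (D : Op K) (h : ℤ → M) : ℤ → M :=
  fun c => D.em c • h (c - 2) + D.e0 c • h c + D.ep c • h (c + 2)

lemma Op.O_zero (D : Op K) : D.O (0 : ℤ → M) = 0 := by
  funext c
  simp [Op.O]

lemma Op.E_zero (D : Op K) : D.E (0 : ℤ → M) = 0 := by
  funext c
  simp [Op.E]

/-- The four coefficients of the combination with weights `t` of two values of the even
operator and three values of the odd operator. -/
def phi (D : Op K) (c : ℤ) (t : Fin 5 → K) : Fin 4 → K :=
  ![t 0 * D.em (c - 1) - t 2 * D.om (c - 2),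
    t 0 * D.e0 (c - 1) + t 1 * D.em (c + 1) - t 2 * D.op (c - 2) - t 3 * D.om c,
    t 0 * D.ep (c - 1) + t 1 * D.e0 (c + 1) - t 3 * D.op c - t 4 * D.om (c + 2),
    t 1 * D.ep (c + 1) - t 4 * D.op (c + 2)]

/-- `phi` as a linear map. -/
def phiL (D : Op K) (c : ℤ) : (Fin 5 → K) →ₗ[K] (Fin 4 → K) where
  toFun := phi D c
  map_add' x y := by
    funext r
    fin_cases r <;> simp [phi] <;> ring
  map_smul' x y := by
    funext r
    fin_cases r <;> simp [phi] <;> ring

lemma pairing (D : Op K) (c : ℤ) (t : Fin 5 → K) (h : ℤ → M) :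
    t 0 • D.E h (c - 1) + t 1 • D.E h (c + 1)
      - (t 2 • D.O h (c - 2) + t 3 • D.O h c + t 4 • D.O h (c + 2))
      = phi D c t 0 • h (c - 3) + phi D c t 1 • h (c - 1) + phi D c t 2 • h (c + 1)
        + phi D c t 3 • h (c + 3) := by
  have e1 : c - 1 - 2 = c - 3 := by ring
  have e2 : c - 1 + 2 = c + 1 := by ring
  have e3 : c + 1 - 2 = c - 1 := by ring
  have e4 : c + 1 + 2 = c + 3 := by ring
  have e5 : c - 2 - 1 = c - 3 := by ring
  have e6 : c - 2 + 1 = c - 1 := by ring
  have e7 : c + 2 - 1 = c + 1 := by ring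
  have e8 : c + 2 + 1 = c + 3 := by ring
  simp only [Op.E, Op.O, e1, e2, e3, e4, e5, e6, e7, e8, phi]
  simp
  module

end

/-- `D'` intertwines with `D`. -/
def Inter (D D' : Op K) : Prop :=
  ∀ c, phi D c ![D'.om c, D'.op c, D'.em c, D'.e0 c, D'.ep c] = 0

lemma Inter.comm {D D' : Op K} (hD : Inter D D') {M : Type*} [AddCommGroup M] [Module K M]
    (h : ℤ → M) : D'.E (D.O h) = D'.O (D.E h) := by
  funext c
  have := pairing D c ![D'.om c, D'.op c, D'.em c, D'.e0 c, D'.ep c] h
  rw [hD c] at this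
  simp at this
  rw [sub_eq_zero] at this
  simp only [Op.E, Op.O] at this ⊢
  exact this.symm

variable {V : Type*} [AddCommGroup V] [Module K V]

variable (K) in
/-- One step of the pentagram map, on the level of representing vectors. -/
structure VStep (a b : ℤ → V) : Prop where
  li2 : ∀ i : ℤ, ∀ s t : K, s • a (i - 1) + t • a (i + 1) = 0 → s = 0 ∧ t = 0
  li3 : ∀ i : ℤ, ∀ x y z : K, x • a (i - 2) + y • a i + z • a (i + 2) = 0 →
    x = 0 ∧ y = 0 ∧ z = 0
  ne : ∀ i : ℤ, b i ≠ 0
  mem2 : ∀ i : ℤ, ∃ s t : K, b i = s • a (i - 1) + t • a (i + 1)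
  mem3 : ∀ i : ℤ, ∃ x y z : K, b i = x • a (i - 2) + y • a i + z • a (i + 2)
  meet : ∀ i : ℤ, ∀ s t x y z : K,
    s • a (i - 1) + t • a (i + 1) = x • a (i - 2) + y • a i + z • a (i + 2) →
    ∃ r : K, s • a (i - 1) + t • a (i + 1) = r • b i

/-- The operators of the first step. -/
lemma VStep.exists_op {a b : ℤ → V} (h : VStep K a b) :
    ∃ D : Op K, b = D.O a ∧ b = D.E a := by
  choose s t hst using h.mem2
  choose x y z hxyz using h.mem3
  refine ⟨⟨s, t, x, y, z⟩, ?_, ?_⟩
  · funext c
    exact hst c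
  · funext c
    exact hxyz c

/-- An element of the kernel of `phi` gives a common value. -/
lemma phi_value {a b : ℤ → V} {D : Op K} (hO : b = D.O a) (hE : b = D.E a) {c : ℤ}
    {t : Fin 5 → K} (ht : phi D c t = 0) :
    t 0 • b (c - 1) + t 1 • b (c + 1) = t 2 • b (c - 2) + t 3 • b c + t 4 • b (c + 2) := by
  have := pairing D c t a
  rw [ht] at this
  simp only [Pi.zero_apply, zero_smul, add_zero] at this
  rw [sub_eq_zero, ← hO, ← hE] at this
  exact this

/-- A kernel element with value zero vanishes. -/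
lemma phi_eq_zero {a b b' : ℤ → V} (hb : VStep K b b') {D : Op K} (hO : b = D.O a)
    (hE : b = D.E a) {c : ℤ} {t : Fin 5 → K} (ht : phi D c t = 0)
    (hv : t 0 • b (c - 1) + t 1 • b (c + 1) = 0) : t = 0 := by
  have h1 := hb.li2 c _ _ hv
  have h2 := phi_value hO hE ht
  rw [hv] at h2
  have h3 := hb.li3 c _ _ _ h2.symm
  funext r
  fin_cases r
  · exact h1.1
  · exact h1.2
  · exact h3.1
  · exact h3.2.1
  · exact h3.2.2

lemma ker_finrank_le {a b b' : ℤ → V} (hb : VStep K b b') {D : Op K} (hO : b = D.O a)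
    (hE : b = D.E a) (c : ℤ) : Module.finrank K (LinearMap.ker (phiL D c)) ≤ 1 := by
  -- the value map is injective with image in a line
  have hval : ∀ t : Fin 5 → K, phi D c t = 0 →
      ∃ r : K, t 0 • b (c - 1) + t 1 • b (c + 1) = r • b' c := by
    intro t ht
    exact hb.meet c _ _ _ _ _ (phi_value hO hE ht)
  by_cases hz : ∃ t : Fin 5 → K, phi D c t = 0 ∧ t ≠ 0
  · obtain ⟨t, ht, ht0⟩ := hz
    obtain ⟨r, hr⟩ := hval t ht
    have hr0 : r ≠ 0 := by
      rintro rfl
      rw [zero_smul] at hr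
      exact ht0 (phi_eq_zero hb hO hE ht hr)
    refine finrank_le_one (⟨t, ht⟩ : LinearMap.ker (phiL D c)) ?_
    rintro ⟨t', ht'⟩
    obtain ⟨r', hr'⟩ := hval t' ht'
    refine ⟨r' / r, ?_⟩
    ext1
    have hcomb : phi D c (t' - (r' / r) • t) = 0 := by
      have h1 : phiL D c (t' - (r' / r) • t) = 0 := by
        rw [map_sub, map_smul]
        have e1 : phiL D c t' = 0 := ht'
        have e2 : phiL D c t = 0 := ht
        rw [e1, e2]
        simp
      exact h1
    have hv : (t' - (r' / r) • t) 0 • b (c - 1) + (t' - (r' / r) • t) 1 • b (c + 1) = 0 := by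
      have e : (t' - (r' / r) • t) 0 • b (c - 1) + (t' - (r' / r) • t) 1 • b (c + 1)
          = (t' 0 • b (c - 1) + t' 1 • b (c + 1))
            - (r' / r) • (t 0 • b (c - 1) + t 1 • b (c + 1)) := by
        simp only [Pi.sub_apply, Pi.smul_apply, smul_eq_mul]
        module
      rw [e, hr, hr', smul_smul, div_mul_cancel₀ _ hr0, sub_self]
    have := phi_eq_zero hb hO hE hcomb hv
    exact (sub_eq_zero.mp this).symm
  · push Not at hz
    have : LinearMap.ker (phiL D c) = ⊥ := by
      rw [Submodule.eq_bot_iff]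
      intro t ht
      exact hz t ht
    rw [this]
    simp

/-- The operators of the next step. -/
lemma exists_next {a b b' : ℤ → V} (hb : VStep K b b') {D : Op K} (hO : b = D.O a)
    (hE : b = D.E a) : ∃ D' : Op K, b' = D'.O b ∧ b' = D'.E b ∧ Inter D D' := by
  have key : ∀ c : ℤ, ∃ t : Fin 5 → K, phi D c t = 0 ∧
      b' c = t 0 • b (c - 1) + t 1 • b (c + 1) := by
    intro c
    have hker : LinearMap.ker (phiL D c) ≠ ⊥ := by
      refine LinearMap.ker_ne_bot_of_finrank_lt ?_
      simp
    obtain ⟨t, ht, ht0⟩ := Submodule.exists_mem_ne_zero_of_ne_bot hker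
    have ht' : phi D c t = 0 := ht
    obtain ⟨r, hr⟩ := hb.meet c _ _ _ _ _ (phi_value hO hE ht')
    have hr0 : r ≠ 0 := by
      rintro rfl
      rw [zero_smul] at hr
      exact ht0 (phi_eq_zero hb hO hE ht' hr)
    refine ⟨r⁻¹ • t, ?_, ?_⟩
    · have h1 : phiL D c (r⁻¹ • t) = 0 := by
        rw [map_smul]
        have e2 : phiL D c t = 0 := ht
        rw [e2, smul_zero]
      exact h1
    · simp only [Pi.smul_apply, smul_eq_mul, mul_smul]
      rw [← smul_add, hr, smul_smul, inv_mul_cancel₀ hr0, one_smul]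
  choose t ht htb using key
  refine ⟨⟨fun c => t c 0, fun c => t c 1, fun c => t c 2, fun c => t c 3, fun c => t c 4⟩,
    ?_, ?_, ?_⟩
  · funext c
    exact htb c
  · funext c
    rw [htb c]
    exact phi_value hO hE (ht c)
  · intro c
    have : ![t c 0, t c 1, t c 2, t c 3, t c 4] = t c := by
      funext r
      fin_cases r <;> rfl
    show phi D c ![t c 0, t c 1, t c 2, t c 3, t c 4] = 0
    rw [this]
    exact ht c

/-- If the next step is defined, only the zero function is killed by both operators. -/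
lemma eq_zero_of_killed {a b b' : ℤ → V} (hb : VStep K b b') {D : Op K} (hO : b = D.O a)
    (hE : b = D.E a) {h : ℤ → K} (h1 : D.O h = 0) (h2 : D.E h = 0) : h = 0 := by
  funext s
  have hsurj : Function.Surjective (phiL D (s + 1)) := by
    rw [← LinearMap.range_eq_top]
    refine Submodule.eq_top_of_finrank_eq ?_
    have h3 := LinearMap.finrank_range_add_finrank_ker (phiL D (s + 1))
    have h4 := ker_finrank_le hb hO hE (s + 1)
    have h5 := Submodule.finrank_le (LinearMap.range (phiL D (s + 1)))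
    simp only [Module.finrank_fintype_fun_eq_card, Fintype.card_fin] at h3 h5 ⊢
    omega
  obtain ⟨t, ht⟩ := hsurj ![0, 1, 0, 0]
  have ht' : phi D (s + 1) t = ![0, 1, 0, 0] := ht
  have := pairing D (s + 1) t h
  rw [ht', h1, h2] at this
  simp at this
  exact this.symm

/-! ### Towers -/

/-- A sequence of polygons with operators for every step. -/
structure Tower (k : ℕ) (a : ℕ → ℤ → V) (D : ℕ → Op K) : Prop where
  step : ∀ j, j < k → VStep K (a j) (a (j + 1))
  eqO : ∀ j, j < k → a (j + 1) = (D j).O (a j)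
  eqE : ∀ j, j < k → a (j + 1) = (D j).E (a j)
  inter : ∀ j, j + 1 < k → Inter (D j) (D (j + 1))

lemma Tower.shift {k : ℕ} {a : ℕ → ℤ → V} {D : ℕ → Op K} (h : Tower (k + 1) a D) :
    Tower k (fun j => a (j + 1)) (fun j => D (j + 1)) where
  step j hj := h.step (j + 1) (by omega)
  eqO j hj := h.eqO (j + 1) (by omega)
  eqE j hj := h.eqE (j + 1) (by omega)
  inter j hj := h.inter (j + 1) (by omega)

lemma exists_tower {k : ℕ} {a : ℕ → ℤ → V}
    (hstep : ∀ j, j < k → VStep K (a j) (a (j + 1))) {D₀ : Op K}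
    (hO : a 1 = D₀.O (a 0)) (hE : a 1 = D₀.E (a 0)) :
    ∃ D : ℕ → Op K, D 0 = D₀ ∧ Tower k a D := by
  classical
  let Good : ℕ → Op K → Prop := fun j D =>
    j < k → a (j + 1) = D.O (a j) ∧ a (j + 1) = D.E (a j)
  have hnext : ∀ j (D : Op K), Good j D → ∃ D' : Op K, Good (j + 1) D' ∧
      (j + 1 < k → Inter D D') := by
    intro j D hD
    by_cases hj : j + 1 < k
    · obtain ⟨h1, h2⟩ := hD (by omega)
      obtain ⟨D', e1, e2, e3⟩ := exists_next (hstep (j + 1) hj) h1 h2
      exact ⟨D', fun _ => ⟨e1, e2⟩, fun _ => e3⟩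
    · exact ⟨D, fun h => absurd h hj, fun h => absurd h hj⟩
  choose! f hf1 hf2 using hnext
  let D : ℕ → Op K := fun n => Nat.rec D₀ (fun j D => f j D) n
  have hgood : ∀ j, Good j (D j) := by
    intro j
    induction j with
    | zero => exact fun _ => ⟨hO, hE⟩
    | succ j ih => exact hf1 j (D j) ih
  refine ⟨D, rfl, hstep, fun j hj => (hgood j hj).1, fun j hj => (hgood j hj).2, ?_⟩
  intro j hj
  exact hf2 j (D j) (hgood j) hj

/-- The uniqueness lemma. -/
lemma Tower.unique {m : ℕ} : ∀ {a : ℕ → ℤ → V} {D : ℕ → Op K}, Tower (m + 1) a D →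
    ∀ h : ℕ → ℤ → K, h 0 = 0 → (∀ j, j < m → (D 0).E (h (j + 1)) = (D 0).O (h j)) →
      (D 0).O (h m) = 0 → ∀ j, j ≤ m → h j = 0 := by
  induction m with
  | zero =>
    intro a D _ h h0 _ _ j hj
    have : j = 0 := by omega
    rw [this, h0]
  | succ m ih =>
    intro a D hT h h0 hrec hlast
    have hinter : Inter (D 0) (D 1) := hT.inter 0 (by omega)
    have hg := ih hT.shift (fun j => (D 0).O (h j)) (by
        show (D 0).O (h 0) = 0
        rw [h0, Op.O_zero]) (by
        intro j hj
        show (D 1).E ((D 0).O (h (j + 1))) = (D 1).O ((D 0).O (h j))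
        rw [hinter.comm, hrec j (by omega)]) (by
        show (D 1).O ((D 0).O (h m)) = 0
        rw [← hrec m (by omega), ← hinter.comm, hlast, Op.E_zero])
    intro j hj
    by_cases hj0 : j = 0
    · rw [hj0, h0]
    · obtain ⟨i, rfl⟩ : ∃ i, j = i + 1 := ⟨j - 1, by omega⟩
      have e1 : (D 0).E (h (i + 1)) = 0 := by
        rw [hrec i (by omega)]
        exact hg i (by omega)
      have e2 : (D 0).O (h (i + 1)) = 0 := by
        by_cases hi : i + 1 = m + 1
        · rw [hi]
          exact hlast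
        · exact hg (i + 1) (by omega)
      exact eq_zero_of_killed (hT.step 1 (by omega)) (hT.eqO 0 (by omega))
        (hT.eqE 0 (by omega)) e2 e1

/-- The iterates of a function under the odd operators of a tower. -/
def iter (D : ℕ → Op K) (x : ℤ → K) : ℕ → ℤ → K
  | 0 => x
  | j + 1 => (D j).O (iter D x j)

lemma iter_succ' (D : ℕ → Op K) (x : ℤ → K) (k : ℕ) :
    iter D x (k + 1) = iter (fun j => D (j + 1)) ((D 0).O x) k := by
  induction k with
  | zero => rfl
  | succ k ih =>
    show (D (k + 1)).O (iter D x (k + 1)) = (D (k + 1)).O (iter _ _ k)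
    rw [ih]

/-- The vanishing lemma. -/
lemma Tower.vanish {k : ℕ} : ∀ {a : ℕ → ℤ → V} {D : ℕ → Op K}, Tower (k + 1) a D →
    ∀ h : ℕ → ℤ → K, (∀ j, j < k → (D 0).E (h (j + 1)) = (D 0).O (h j)) →
      (D 0).O (h k) = 0 → iter D (h 0) (k + 1) = 0 := by
  induction k with
  | zero =>
    intro a D _ h _ hlast
    exact hlast
  | succ k ih =>
    intro a D hT h hrec hlast
    have hinter : Inter (D 0) (D 1) := hT.inter 0 (by omega)
    rw [iter_succ']
    refine ih hT.shift (fun j => (D 0).O (h j)) ?_ ?_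
    · intro j hj
      show (D 1).E ((D 0).O (h (j + 1))) = (D 1).O ((D 0).O (h j))
      rw [hinter.comm, hrec j (by omega)]
    · show (D 1).O ((D 0).O (h k)) = 0
      rw [← hrec k (by omega), ← hinter.comm, hlast, Op.E_zero]

end Pool.Agent.Lib_MP_d88dfe_an
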